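import Pool.Agent.MP_c6582e_nt.H83.Core

/-! Integer parts of `ξ (5/2)^n`: infinitely many are composite, with a prime factor at most 31. -/

namespace Pool.Agent.Results.MP_c6582e_nt.FiveHalves

theorem result (ξ : ℝ) (hξ : 0 < ξ) :
    {n : ℕ | 1 < ⌊ξ * (5 / 2 : ℝ) ^ n⌋₊ ∧ ¬ (⌊ξ * (5 / 2 : ℝ) ^ n⌋₊).Prime ∧
      ∃ l ∈ ({2, 3, 7, 11, 13, 17, 19, 23, 29, 31} : Finset ℕ),
        l ∣ ⌊ξ * (5 / 2 : ℝ) ^ n⌋₊}.Infinite := by
  intro hfin
  obtain ⟨N₁, hN₁⟩ := hfin.bddAbove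
  have hev : ∀ᶠ n in Filter.atTop, (32 : ℝ) ≤ ξ * (5 / 2 : ℝ) ^ n :=
    ((tendsto_pow_atTop_atTop_of_one_lt (by norm_num : (1 : ℝ) < 5 / 2)).const_mul_atTop
      hξ).eventually_ge_atTop 32
  obtain ⟨N₂, hN₂⟩ := Filter.eventually_atTop.1 hev
  set N := N₁ + N₂ + 1 with hN
  set z : ℕ → ℝ := fun n => ξ * (5 / 2 : ℝ) ^ (N + n) with hz
  set x : ℕ → ℕ := fun n => ⌊z n⌋₊ with hx
  have hz32 : ∀ n, (32 : ℝ) ≤ z n := fun n => hN₂ _ (by omega)
  have hx32 : ∀ n, 32 ≤ x n := fun n => Nat.le_floor (by exact_mod_cast hz32 n)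
  have hndvd : ∀ n, ∀ l ∈ ({2, 3, 7, 11, 13, 17, 19, 23, 29, 31} : Finset ℕ), ¬ l ∣ x n := by
    intro n l hl hd
    have hl2 : 2 ≤ l ∧ l ≤ 31 := by
      simp only [Finset.mem_insert, Finset.mem_singleton] at hl
      omega
    have hmem : N + n ≤ N₁ := by
      apply hN₁
      refine ⟨by have := hx32 n; change 1 < x n; omega, ?_, l, hl, hd⟩
      intro hp
      have h32 := hx32 n
      rcases (Nat.dvd_prime (show (x n).Prime from hp)).1 hd with h | h <;> omega
    omega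
  have hzs : ∀ n, 2 * z (n + 1) = 5 * z n := by
    intro n
    simp only [hz, ← add_assoc, pow_succ]
    ring
  have hlo : ∀ n, (x n : ℝ) ≤ z n := fun n => Nat.floor_le (by linarith [hz32 n])
  have hhi : ∀ n, z n < x n + 1 := fun n => Nat.lt_floor_add_one _
  have hodd : ∀ n, x n % 2 = 1 := by
    intro n
    have := hndvd n 2 (by simp)
    omega
  have hlow : ∀ n, 5 * x n < 2 * x (n + 1) + 2 := by
    intro n
    have : (5 * x n : ℝ) < 2 * x (n + 1) + 2 := by
      linarith [hlo n, hhi (n + 1), hzs n]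
    exact_mod_cast this
  have hup : ∀ n, 2 * x (n + 1) < 5 * x n + 5 := by
    intro n
    have : (2 * x (n + 1) : ℝ) < 5 * x n + 5 := by
      linarith [hhi n, hlo (n + 1), hzs n]
    exact_mod_cast this
  have hc : ∀ n, 2 * (x (n + 1) + 1) + 2 * ((5 * x n + 3 - 2 * x (n + 1)) / 2)
      = 5 * (x n + 1) := by
    intro n
    have h1 := hodd n
    have h2 := hup n
    omega
  refine Pool.Agent.MP_c6582e_nt.H83.core (u := fun n => x n + 1)
    (c := fun n => (5 * x n + 3 - 2 * x (n + 1)) / 2) (y := fun n => z n - x n) hc ?_ ?_ ?_ ?_ ?_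
  · refine strictMono_nat_of_lt_succ fun n => ?_
    have h1 := hlow n
    have h2 := hx32 n
    show x n + 1 < x (n + 1) + 1
    omega
  · intro n l hl h
    have hl' : l ∈ ({2, 3, 7, 11, 13, 17, 19, 23, 29, 31} : Finset ℕ) := by
      simp only [List.mem_cons, List.not_mem_nil, or_false] at hl
      simp only [Finset.mem_insert, Finset.mem_singleton]
      omega
    apply hndvd n l hl'
    have h1 : (x n + 1) % l = 1 % l := by
      rw [show (x n + 1) % l = 1 from h, Nat.mod_eq_of_lt]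
      simp only [List.mem_cons, List.not_mem_nil, or_false] at hl
      omega
    have h2 : x n + 1 ≡ 0 + 1 [MOD l] := by simpa [Nat.ModEq] using h1
    exact (Nat.modEq_zero_iff_dvd).1 (Nat.ModEq.add_right_cancel' 1 h2)
  · intro n
    show 0 ≤ z n - x n
    linarith [hlo n]
  · intro n
    show z n - x n < 1
    linarith [hhi n]
  · intro n
    have h := hc n
    have h' : (2 * ((x (n + 1) : ℝ) + 1) + 2 * (((5 * x n + 3 - 2 * x (n + 1)) / 2 : ℕ) : ℝ))
        = 5 * (x n + 1) := by exact_mod_cast h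
    show 2 * (z (n + 1) - x (n + 1)) = 5 * (z n - x n) - 3
      + 2 * (((5 * x n + 3 - 2 * x (n + 1)) / 2 : ℕ) : ℝ)
    linarith [hzs n]

end Pool.Agent.Results.MP_c6582e_nt.FiveHalves
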