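import Pool.Agent.MP_c6582e_nt.H5.Main

/-! Orbits `⌊ξ (p/q)^n⌋` that have few terms with a small prime factor have entropy close to zero. -/

namespace Pool.Agent.Results.MP_c6582e_nt.ZeroEntropy

theorem result (p q : ℕ) (hq : 0 < q) (hqp : q < p) (ε : ℝ) (hε : 0 < ε) :
    ∃ (y : ℕ) (δ C : ℝ), 0 < δ ∧ ∀ N : ℕ,
      (((fun ξ : ℝ => ⌊((p : ℝ) / q) ^ N * Int.fract ξ⌋) ''
        {ξ : ℝ | (({n : ℕ | n < N ∧ ∃ l : ℕ, l ≤ y ∧ l.Prime ∧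
          (l : ℤ) ∣ ⌊ξ * ((p : ℝ) / q) ^ n⌋}.ncard : ℕ) : ℝ) ≤ δ * N}).ncard : ℝ) ≤
        C * ((p : ℝ) / q) ^ (ε * N) := by
  classical
  obtain ⟨y, δ, C, hδ, h⟩ := Pool.Agent.MP_c6582e_nt.H5.final p q hq hqp ε hε
  refine ⟨y, δ, C, hδ, fun N => ?_⟩
  convert h N using 8 with ξ
  rw [← Set.ncard_coe_finset]
  congr 1
  ext n
  simp

end Pool.Agent.Results.MP_c6582e_nt.ZeroEntropy
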